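import Pool.Agent.helper80.T1.SpecO

/-!
# MP_07c750, project T1, row OCH: chain and product rule up to the order 2

The second derivative has eleven terms (with multiplicity); the bound by ten terms uses `|β| + |β'| ≤ 3 M / 2`, which follows from the bounds of `β` and `β''`.
-/

set_option autoImplicit false

open scoped MatrixGroups ContDiff Topology UpperHalfPlane ComplexConjugate
open UpperHalfPlane MeasureTheory Filter Set

namespace Pool.Agent.T1

open Pool.Agent.RS Pool.Agent.MS Pool.Agent.HV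

noncomputable section

theorem OCH_d (f : ℝ → ℝ) (hf : ContDiff ℝ 2 f) : (∀ x, HasDerivAt f (deriv f x) x) ∧ ∀ x, HasDerivAt (deriv f) (deriv (deriv f) x) x := by
  have h1 : Differentiable ℝ f := hf.differentiable (by norm_num)
  have h2 : ContDiff ℝ 1 (deriv f) := by
    have h3 : ContDiff ℝ (1 + 1) f := by
      refine hf.of_le ?_
      norm_num
    exact h3.deriv'
  exact ⟨fun x => (h1 x).hasDerivAt, fun x => (h2.differentiable (by norm_num) x).hasDerivAt⟩

theorem OCH_i (f : ℝ → ℝ) : iteratedDeriv 2 f = deriv (deriv f) := by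
  rw [show (2 : ℕ) = 1 + 1 from rfl, iteratedDeriv_succ', iteratedDeriv_one]

/-- Taylor -/
theorem OCH_T (f : ℝ → ℝ) (M : ℝ) (hf : ContDiff ℝ 2 f) (hM : ∀ y, |deriv (deriv f) y| ≤ M) (y h : ℝ) (hh : h ^ 2 = 1) : f y + deriv f y * h ≤ f (y + h) + M / 2 := by
  obtain ⟨d1, d2⟩ := OCH_d f hf
  have h1 : ∀ u : ℝ, |deriv f (y + u) - deriv f y| ≤ M * |u| := by
    intro u
    have h2 := Convex.norm_image_sub_le_of_norm_deriv_le (f := deriv f) (s := univ) (C := M) (x := y) (y := y + u) (fun x _ => (d2 x).differentiableAt) (fun x _ => hM x) convex_univ (mem_univ _) (mem_univ _)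
    rw [Real.norm_eq_abs, Real.norm_eq_abs, add_sub_cancel_left] at h2
    exact h2
  have hha : |h| = 1 := by
    rw [← sq_abs] at hh
    nlinarith [abs_nonneg h]
  have hφ : ∀ t : ℝ, HasDerivAt (fun t => f (y + t * h) - deriv f y * h * t + M / 2 * t ^ 2) (deriv f (y + t * h) * h - deriv f y * h + M * t) t := by
    intro t
    have e1 : HasDerivAt (fun t : ℝ => y + t * h) h t := by
      have := ((hasDerivAt_id t).mul_const h).const_add y
      simpa using this
    have e2 : HasDerivAt (fun t : ℝ => f (y + t * h)) (deriv f (y + t * h) * h) t := (d1 (y + t * h)).comp t e1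
    have e3 : HasDerivAt (fun t : ℝ => deriv f y * h * t) (deriv f y * h) t := by
      have := (hasDerivAt_id t).const_mul (deriv f y * h)
      simpa using this
    have e4 : HasDerivAt (fun t : ℝ => M / 2 * t ^ 2) (M * t) t := by
      have := (hasDerivAt_pow 2 t).const_mul (M / 2)
      refine this.congr_deriv ?_
      push_cast
      ring
    exact (e2.sub e3).add e4
  have hmono : MonotoneOn (fun t => f (y + t * h) - deriv f y * h * t + M / 2 * t ^ 2) (Icc (0 : ℝ) 1) := by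
    refine monotoneOn_of_deriv_nonneg (convex_Icc 0 1) (fun t _ => (hφ t).continuousAt.continuousWithinAt) (fun t _ => (hφ t).differentiableAt.differentiableWithinAt) ?_
    intro t ht
    rw [interior_Icc] at ht
    rw [(hφ t).deriv]
    have h2 := h1 (t * h)
    rw [abs_mul, hha, abs_of_pos ht.1, mul_one] at h2
    have h3 : |deriv f (y + t * h) * h - deriv f y * h| ≤ M * t := by
      rw [← sub_mul, abs_mul, hha, mul_one]
      exact h2
    linarith [(abs_le.1 h3).1]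
  have h4 := hmono (left_mem_Icc.2 zero_le_one) (right_mem_Icc.2 zero_le_one) zero_le_one
  simp only [zero_mul, add_zero, mul_zero, sub_zero, one_mul, mul_one, one_pow] at h4
  norm_num at h4
  linarith

theorem OCH_b (f : ℝ → ℝ) (M : ℝ) (hf : ContDiff ℝ 2 f) (h0 : ∀ y, |f y| ≤ M) (hM : ∀ y, |deriv (deriv f) y| ≤ M) (y : ℝ) : |f y| + |deriv f y| ≤ 3 / 2 * M := by
  have hneg : ContDiff ℝ 2 (fun x => -f x) := hf.neg
  have hd : deriv (fun x => -f x) = fun x => -deriv f x := by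
    funext x
    exact deriv.fun_neg
  have hd2 : ∀ y, |deriv (deriv (fun x => -f x)) y| ≤ M := by
    intro y
    rw [hd, deriv.fun_neg, abs_neg]
    exact hM y
  have a1 := OCH_T f M hf hM y 1 (by norm_num)
  have a2 := OCH_T f M hf hM y (-1) (by norm_num)
  have b1 := OCH_T _ M hneg hd2 y 1 (by norm_num)
  have b2 := OCH_T _ M hneg hd2 y (-1) (by norm_num)
  rw [hd] at b1 b2
  have c1 := abs_le.1 (h0 (y + 1))
  have c2 := abs_le.1 (h0 (y + -1))
  have h5 : |f y| + |deriv f y| ≤ 3 / 2 * M := by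
    rcases abs_cases (f y) with h | h <;> rcases abs_cases (deriv f y) with h' | h' <;> rw [h.1, h'.1] <;> linarith [c1.1, c1.2, c2.1, c2.2]
  exact h5

/-- the final estimate -/
theorem OCH_n (b c b2 a a1 a2 x1 x2 y1 y2 p p1 p2 M D : ℝ) (hD : 1 ≤ D) (hb : |b| ≤ M) (hc : |c| ≤ M) (hbc : |b| + |c| ≤ 3 / 2 * M) (hb2 : |b2| ≤ M) (ha : |a| ≤ M) (ha1 : |a1| ≤ M) (ha2 : |a2| ≤ M)
    (hx1 : |x1| ≤ D) (hx2 : |x2| ≤ D) (hy1 : |y1| ≤ D) (hy2 : |y2| ≤ D) (hp : |p| ≤ D) (hp1 : |p1| ≤ D) (hp2 : |p2| ≤ D) :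
    |b2 * x1 * x1 * a * p + c * x2 * a * p + 2 * (c * x1 * a1 * y1 * p) + 2 * (c * x1 * a * p1) + b * a2 * y1 * y1 * p + b * a1 * y2 * p + 2 * (b * a1 * y1 * p1) + b * a * p2| ≤ 10 * M ^ 2 * D ^ 3 := by
  have hM0 : 0 ≤ M := (abs_nonneg _).trans hb
  have hD0 : 0 ≤ D := by linarith
  have hD2 : M ^ 2 * D ^ 2 ≤ M ^ 2 * D ^ 3 := mul_le_mul_of_nonneg_left (pow_le_pow_right₀ hD (by norm_num)) (by positivity)
  have hD1 : M ^ 2 * D ≤ M ^ 2 * D ^ 3 := by
    have := mul_le_mul_of_nonneg_left (pow_le_pow_right₀ hD (show 1 ≤ 3 by norm_num)) (show 0 ≤ M ^ 2 by positivity)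
    rwa [pow_one] at this
  have t1 : |b2 * x1 * x1 * a * p| ≤ M ^ 2 * D ^ 3 := by
    rw [abs_mul, abs_mul, abs_mul, abs_mul]
    calc |b2| * |x1| * |x1| * |a| * |p| ≤ M * D * D * M * D := by gcongr
      _ = M ^ 2 * D ^ 3 := by ring
  have t2 : |c * x2 * a * p| ≤ M ^ 2 * D ^ 2 := by
    rw [abs_mul, abs_mul, abs_mul]
    calc |c| * |x2| * |a| * |p| ≤ M * D * M * D := by gcongr
      _ = M ^ 2 * D ^ 2 := by ring
  have t4 : |c * x1 * a * p1| ≤ M ^ 2 * D ^ 2 := by
    rw [abs_mul, abs_mul, abs_mul]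
    calc |c| * |x1| * |a| * |p1| ≤ M * D * M * D := by gcongr
      _ = M ^ 2 * D ^ 2 := by ring
  have t5 : |b * a2 * y1 * y1 * p| ≤ M ^ 2 * D ^ 3 := by
    rw [abs_mul, abs_mul, abs_mul, abs_mul]
    calc |b| * |a2| * |y1| * |y1| * |p| ≤ M * M * D * D * D := by gcongr
      _ = M ^ 2 * D ^ 3 := by ring
  have t8 : |b * a * p2| ≤ M ^ 2 * D := by
    rw [abs_mul, abs_mul]
    calc |b| * |a| * |p2| ≤ M * M * D := by gcongr
      _ = M ^ 2 * D := by ring
  have t3 : |c * x1 * a1 * y1 * p| ≤ |c| * (M * D ^ 3) := by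
    rw [abs_mul, abs_mul, abs_mul, abs_mul]
    calc |c| * |x1| * |a1| * |y1| * |p| ≤ |c| * D * M * D * D := by gcongr
      _ = |c| * (M * D ^ 3) := by ring
  have t6 : |b * a1 * y2 * p| ≤ |b| * (M * D ^ 3) := by
    rw [abs_mul, abs_mul, abs_mul]
    calc |b| * |a1| * |y2| * |p| ≤ |b| * M * D * D := by gcongr
      _ = |b| * M * D ^ 2 := by ring
      _ ≤ |b| * M * D ^ 3 := mul_le_mul_of_nonneg_left (pow_le_pow_right₀ hD (by norm_num)) (by positivity)
      _ = |b| * (M * D ^ 3) := by ring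
  have t7 : |b * a1 * y1 * p1| ≤ |b| * (M * D ^ 3) := by
    rw [abs_mul, abs_mul, abs_mul]
    calc |b| * |a1| * |y1| * |p1| ≤ |b| * M * D * D := by gcongr
      _ = |b| * M * D ^ 2 := by ring
      _ ≤ |b| * M * D ^ 3 := mul_le_mul_of_nonneg_left (pow_le_pow_right₀ hD (by norm_num)) (by positivity)
      _ = |b| * (M * D ^ 3) := by ring
  have hE : 0 ≤ M * D ^ 3 := by positivity
  have t367 : 2 * (|c| * (M * D ^ 3)) + |b| * (M * D ^ 3) + 2 * (|b| * (M * D ^ 3)) ≤ 4 * (M ^ 2 * D ^ 3) := by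
    have e1 : (2 * (|b| + |c|) + |b|) * (M * D ^ 3) ≤ (2 * (3 / 2 * M) + M) * (M * D ^ 3) := by
      refine mul_le_mul_of_nonneg_right ?_ hE
      linarith
    linarith
  rw [abs_le] at t1 t2 t3 t4 t5 t6 t7 t8 ⊢
  constructor <;> linarith [t1.1, t1.2, t2.1, t2.2, t3.1, t3.2, t4.1, t4.2, t5.1, t5.2, t6.1, t6.2, t7.1, t7.2, t8.1, t8.2]

theorem OCH_proof : OCH_stmt := by
  intro β α X Y P M D x hβ hα hX hY hP hD hM hXY hPx
  obtain ⟨β1, β2⟩ := OCH_d β hβ
  obtain ⟨α1, α2⟩ := OCH_d α hα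
  obtain ⟨X1, X2⟩ := OCH_d X hX
  obtain ⟨Y1, Y2⟩ := OCH_d Y hY
  obtain ⟨P1, P2⟩ := OCH_d P hP
  have hM0 : ∀ y, |β y| ≤ M ∧ |α y| ≤ M := fun y => by
    have := hM 0 (by norm_num) y
    rwa [iteratedDeriv_zero, iteratedDeriv_zero] at this
  have hM1 : ∀ y, |deriv β y| ≤ M ∧ |deriv α y| ≤ M := fun y => by
    have := hM 1 (by norm_num) y
    rwa [iteratedDeriv_one, iteratedDeriv_one] at this
  have hM2 : ∀ y, |deriv (deriv β) y| ≤ M ∧ |deriv (deriv α) y| ≤ M := fun y => by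
    have := hM 2 le_rfl y
    rwa [OCH_i, OCH_i] at this
  have hX1 := hXY 1 le_rfl (by norm_num)
  have hX2 := hXY 2 (by norm_num) le_rfl
  rw [iteratedDeriv_one, iteratedDeriv_one] at hX1
  rw [OCH_i, OCH_i] at hX2
  have hP0 := hPx 0 (by norm_num)
  have hP1 := hPx 1 (by norm_num)
  have hP2 := hPx 2 le_rfl
  rw [iteratedDeriv_zero] at hP0
  rw [iteratedDeriv_one] at hP1
  rw [OCH_i] at hP2
  have hMp : 0 ≤ M := (abs_nonneg _).trans (hM0 x).1
  have hDp : 0 ≤ D := by linarith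
  have hF : ∀ x, HasDerivAt (fun x => β (X x) * α (Y x) * P x) (deriv β (X x) * deriv X x * α (Y x) * P x + β (X x) * (deriv α (Y x) * deriv Y x) * P x + β (X x) * α (Y x) * deriv P x) x := by
    intro x
    have h := (((β1 (X x)).comp x (X1 x)).mul ((α1 (Y x)).comp x (Y1 x))).mul (P1 x)
    refine h.congr_deriv ?_
    simp only [Function.comp_apply, Pi.mul_apply]
    ring
  have hF1 : deriv (fun x => β (X x) * α (Y x) * P x) = fun x => deriv β (X x) * deriv X x * α (Y x) * P x + β (X x) * (deriv α (Y x) * deriv Y x) * P x + β (X x) * α (Y x) * deriv P x := funext fun x => (hF x).deriv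
  intro j hj
  interval_cases j
  · rw [iteratedDeriv_zero, abs_mul, abs_mul]
    calc |β (X x)| * |α (Y x)| * |P x| ≤ M * M * D := by
          have e1 := (hM0 (X x)).1
          have e2 := (hM0 (Y x)).2
          gcongr
      _ ≤ M * M * D ^ 3 := mul_le_mul_of_nonneg_left (by
          have := pow_le_pow_right₀ hD (show 1 ≤ 3 by norm_num)
          rwa [pow_one] at this) (by positivity)
      _ ≤ 10 * M ^ 2 * D ^ 3 := by
          have : 0 ≤ M ^ 2 * D ^ 3 := by positivity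
          nlinarith
  · rw [iteratedDeriv_one, hF1]
    have e1 := (hM0 (X x)).1
    have e2 := (hM0 (Y x)).2
    have e3 := (hM1 (X x)).1
    have e4 := (hM1 (Y x)).2
    have e5 := hX1.1
    have e6 := hX1.2
    have s1 : |deriv β (X x) * deriv X x * α (Y x) * P x| ≤ M ^ 2 * D ^ 2 := by
      rw [abs_mul, abs_mul, abs_mul]
      calc |deriv β (X x)| * |deriv X x| * |α (Y x)| * |P x| ≤ M * D * M * D := by gcongr
        _ = M ^ 2 * D ^ 2 := by ring
    have s2 : |β (X x) * (deriv α (Y x) * deriv Y x) * P x| ≤ M ^ 2 * D ^ 2 := by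
      rw [abs_mul, abs_mul, abs_mul]
      calc |β (X x)| * (|deriv α (Y x)| * |deriv Y x|) * |P x| ≤ M * (M * D) * D := by gcongr
        _ = M ^ 2 * D ^ 2 := by ring
    have s3 : |β (X x) * α (Y x) * deriv P x| ≤ M ^ 2 * D := by
      rw [abs_mul, abs_mul]
      calc |β (X x)| * |α (Y x)| * |deriv P x| ≤ M * M * D := by gcongr
        _ = M ^ 2 * D := by ring
    have s4 : M ^ 2 * D ^ 2 ≤ M ^ 2 * D ^ 3 := mul_le_mul_of_nonneg_left (pow_le_pow_right₀ hD (by norm_num)) (by positivity)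
    have s5 : M ^ 2 * D ≤ M ^ 2 * D ^ 3 := by
      have := mul_le_mul_of_nonneg_left (pow_le_pow_right₀ hD (show 1 ≤ 3 by norm_num)) (show 0 ≤ M ^ 2 by positivity)
      rwa [pow_one] at this
    have s6 : 0 ≤ M ^ 2 * D ^ 3 := by positivity
    rw [abs_le] at s1 s2 s3 ⊢
    constructor <;> linarith [s1.1, s1.2, s2.1, s2.2, s3.1, s3.2]
  · rw [OCH_i, hF1]
    have hG : HasDerivAt (fun x => deriv β (X x) * deriv X x * α (Y x) * P x + β (X x) * (deriv α (Y x) * deriv Y x) * P x + β (X x) * α (Y x) * deriv P x)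
        (deriv (deriv β) (X x) * deriv X x * deriv X x * α (Y x) * P x + deriv β (X x) * deriv (deriv X) x * α (Y x) * P x + 2 * (deriv β (X x) * deriv X x * deriv α (Y x) * deriv Y x * P x) + 2 * (deriv β (X x) * deriv X x * α (Y x) * deriv P x) +
          β (X x) * deriv (deriv α) (Y x) * deriv Y x * deriv Y x * P x + β (X x) * deriv α (Y x) * deriv (deriv Y) x * P x + 2 * (β (X x) * deriv α (Y x) * deriv Y x * deriv P x) + β (X x) * α (Y x) * deriv (deriv P) x) x := by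
      have g1 := (((β2 (X x)).comp x (X1 x)).mul (X2 x)).mul ((α1 (Y x)).comp x (Y1 x))
      have g1' := g1.mul (P1 x)
      have g2 := (((β1 (X x)).comp x (X1 x)).mul (((α2 (Y x)).comp x (Y1 x)).mul (Y2 x))).mul (P1 x)
      have g3 := (((β1 (X x)).comp x (X1 x)).mul ((α1 (Y x)).comp x (Y1 x))).mul (P2 x)
      refine ((g1'.add g2).add g3).congr_deriv ?_
      simp only [Function.comp_apply, Pi.mul_apply]
      ring
    rw [hG.deriv]
    exact OCH_n _ _ _ _ _ _ _ _ _ _ _ _ _ M D hD (hM0 _).1 (hM1 _).1 (OCH_b β M hβ (fun y => (hM0 y).1) (fun y => (hM2 y).1) _) (hM2 _).1 (hM0 _).2 (hM1 _).2 (hM2 _).2 hX1.1 hX2.1 hX1.2 hX2.2 hP0 hP1 hP2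

end

end Pool.Agent.T1
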