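import Pool.Agent.helper47.T1.SpecE1

/-!
# MP_07c750, project T1, row QLP: derivatives of products
-/

set_option autoImplicit false

open scoped MatrixGroups ContDiff Topology UpperHalfPlane ComplexConjugate
open UpperHalfPlane MeasureTheory Filter Set

namespace Pool.Agent.T1

open Pool.Agent.RS Pool.Agent.MS

noncomputable section

/-- smooth functions on the line with support in `[-w, w]`: the derivative -/
theorem QLP_SB (w : ℝ) (β : ℝ → ℝ) (h : SB w β) : SB w (deriv β) := by
  refine ⟨h.1.deriv' , fun x hx => ?_⟩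
  by_contra hw
  refine hx ?_
  have h1 : β =ᶠ[𝓝 x] fun _ => (0 : ℝ) := by
    have h2 : {y : ℝ | w < |y|} ∈ 𝓝 x := (isOpen_lt continuous_const continuous_abs).mem_nhds (not_le.1 hw)
    filter_upwards [h2] with y hy
    by_contra h3
    exact absurd (h.2 y h3) (not_le.2 hy)
  rw [h1.deriv_eq, deriv_const]

/-- the product function in the complex variable -/
theorem QLP_onC (β α : ℝ → ℝ) (w : ℂ) (hw : 0 < w.im) : QU.onC (pc β α) w = ((β w.re * α (Real.log w.im) : ℝ) : ℂ) := by
  have h1 : ((ofComplex w : ℍ) : ℂ) = w := ofComplex_apply_of_im_pos hw ▸ rfl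
  have h2 : (ofComplex w : ℍ).re = w.re := congrArg Complex.re h1
  have h3 : (ofComplex w : ℍ).im = w.im := congrArg Complex.im h1
  unfold QU.onC pc
  rw [h2, h3]

/-- the differential of the product function -/
theorem QLP_der (β α : ℝ → ℝ) (hβ : Differentiable ℝ β) (hα : Differentiable ℝ α) (w : ℂ) (hw : 0 < w.im) :
    HasFDerivAt (QU.onC (pc β α)) (Complex.ofRealCLM.comp ((deriv β w.re * α (Real.log w.im)) • Complex.reCLM + (β w.re * (deriv α (Real.log w.im) / w.im)) • Complex.imCLM)) w := by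
  have h0 : QU.onC (pc β α) =ᶠ[𝓝 w] fun w => ((β w.re * α (Real.log w.im) : ℝ) : ℂ) := by
    have h2 : {y : ℂ | 0 < y.im} ∈ 𝓝 w := (isOpen_lt continuous_const Complex.continuous_im).mem_nhds hw
    filter_upwards [h2] with y hy
    exact QLP_onC β α y hy
  refine HasFDerivAt.congr_of_eventuallyEq ?_ h0
  have h1 : HasFDerivAt (fun w : ℂ => β w.re) (deriv β w.re • Complex.reCLM) w :=
    (hβ w.re).hasDerivAt.comp_hasFDerivAt w Complex.reCLM.hasFDerivAt
  have h2 : HasFDerivAt (fun w : ℂ => Real.log w.im) (w.im⁻¹ • Complex.imCLM) w :=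
    (Real.hasDerivAt_log hw.ne').comp_hasFDerivAt w Complex.imCLM.hasFDerivAt
  have h3 : HasFDerivAt (fun w : ℂ => α (Real.log w.im)) (deriv α (Real.log w.im) • (w.im⁻¹ • Complex.imCLM)) w :=
    (hα (Real.log w.im)).hasDerivAt.comp_hasFDerivAt w h2
  have h4 := h1.mul h3
  have h5 : HasFDerivAt (fun w : ℂ => ((β w.re * α (Real.log w.im) : ℝ) : ℂ)) (Complex.ofRealCLM.comp (β w.re • (deriv α (Real.log w.im) • (w.im⁻¹ • Complex.imCLM)) + α (Real.log w.im) • (deriv β w.re • Complex.reCLM))) w :=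
    Complex.ofRealCLM.hasFDerivAt.comp w h4
  refine h5.congr_fderiv ?_
  ext v
  simp only [ContinuousLinearMap.comp_apply, add_apply, smul_apply, Complex.reCLM_apply, Complex.imCLM_apply, smul_eq_mul, Complex.ofRealCLM_apply]
  rw [Complex.ofReal_inj]
  ring

theorem QLP_der1 (β α : ℝ → ℝ) (hβ : Differentiable ℝ β) (hα : Differentiable ℝ α) (w : ℂ) (hw : 0 < w.im) :
    fderiv ℝ (QU.onC (pc β α)) w 1 = QU.onC (pc (deriv β) α) w ∧ fderiv ℝ (QU.onC (pc β α)) w Complex.I = QU.onC (pc β (fun τ => Real.exp (-τ) * deriv α τ)) w := by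
  rw [(QLP_der β α hβ hα w hw).fderiv, QLP_onC _ _ w hw, QLP_onC _ _ w hw]
  constructor
  · simp [ContinuousLinearMap.comp_apply]
  · have h1 : Real.exp (-Real.log w.im) = w.im⁻¹ := by rw [Real.exp_neg, Real.exp_log hw]
    rw [h1]
    simp only [ContinuousLinearMap.comp_apply, add_apply, smul_apply, Complex.reCLM_apply, Complex.imCLM_apply, smul_eq_mul, Complex.ofRealCLM_apply, Complex.I_re, Complex.I_im, mul_zero, zero_add, mul_one]
    rw [Complex.ofReal_inj]
    ring

/-- the product function is smooth -/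
theorem QLP_smooth (β α : ℝ → ℝ) (hβ : ContDiff ℝ ∞ β) (hα : ContDiff ℝ ∞ α) (w : ℂ) (hw : 0 < w.im) : ContDiffAt ℝ 2 (QU.onC (pc β α)) w := by
  have h0 : QU.onC (pc β α) =ᶠ[𝓝 w] fun w => ((β w.re * α (Real.log w.im) : ℝ) : ℂ) := by
    have h2 : {y : ℂ | 0 < y.im} ∈ 𝓝 w := (isOpen_lt continuous_const Complex.continuous_im).mem_nhds hw
    filter_upwards [h2] with y hy
    exact QLP_onC β α y hy
  refine ContDiffAt.congr_of_eventuallyEq ?_ h0
  have h1 : ContDiffAt ℝ 2 (fun w : ℂ => β w.re) w := (hβ.of_le (by norm_cast)).contDiffAt.comp w Complex.reCLM.contDiff.contDiffAt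
  have h2 : ContDiffAt ℝ 2 (fun w : ℂ => Real.log w.im) w := (Real.contDiffAt_log.2 hw.ne').comp w Complex.imCLM.contDiff.contDiffAt
  have h3 : ContDiffAt ℝ 2 (fun w : ℂ => α (Real.log w.im)) w := (hα.of_le (by norm_cast)).contDiffAt.comp w h2
  exact Complex.ofRealCLM.contDiff.contDiffAt.comp w (h1.mul h3)

/-- second derivatives -/
theorem QLP_der2 (β α : ℝ → ℝ) (hβ : ContDiff ℝ ∞ β) (hα : ContDiff ℝ ∞ α) (w : ℂ) (hw : 0 < w.im) :
    fderiv ℝ (fderiv ℝ (QU.onC (pc β α))) w 1 1 = ((deriv (deriv β) w.re * α (Real.log w.im) : ℝ) : ℂ) ∧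
    fderiv ℝ (fderiv ℝ (QU.onC (pc β α))) w Complex.I Complex.I = ((β w.re * ((deriv (deriv α) (Real.log w.im) - deriv α (Real.log w.im)) / w.im ^ 2) : ℝ) : ℂ) := by
  have hβ1 : ContDiff ℝ ∞ (deriv β) := hβ.deriv'
  have hα1 : ContDiff ℝ ∞ (deriv α) := hα.deriv'
  have hd : ∀ f : ℝ → ℝ, ContDiff ℝ ∞ f → Differentiable ℝ f := fun f hf => hf.differentiable (by simp)
  have hn : {y : ℂ | 0 < y.im} ∈ 𝓝 w := (isOpen_lt continuous_const Complex.continuous_im).mem_nhds hw
  have hdd : DifferentiableAt ℝ (fderiv ℝ (QU.onC (pc β α))) w :=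
    ((QLP_smooth β α hβ hα w hw).fderiv_right (m := 1) (by norm_num)).differentiableAt (by norm_num)
  have hv : ∀ v : ℂ, fderiv ℝ (fderiv ℝ (QU.onC (pc β α))) w v v = fderiv ℝ (fun y => fderiv ℝ (QU.onC (pc β α)) y v) w v := by
    intro v
    have h1 : HasFDerivAt (fun y => fderiv ℝ (QU.onC (pc β α)) y v) ((fderiv ℝ (fderiv ℝ (QU.onC (pc β α))) w).flip v) w := by
      have h2 := hdd.hasFDerivAt.clm_apply (hasFDerivAt_const v w)
      simpa using h2
    rw [h1.fderiv]
    rfl
  constructor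
  · rw [hv 1]
    have h1 : (fun y => fderiv ℝ (QU.onC (pc β α)) y 1) =ᶠ[𝓝 w] QU.onC (pc (deriv β) α) := by
      filter_upwards [hn] with y hy
      exact (QLP_der1 β α (hd _ hβ) (hd _ hα) y hy).1
    rw [h1.fderiv_eq, (QLP_der1 _ α (hd _ hβ1) (hd _ hα) w hw).1, QLP_onC _ _ w hw]
  · rw [hv Complex.I]
    have h1 : (fun y => fderiv ℝ (QU.onC (pc β α)) y Complex.I) =ᶠ[𝓝 w] QU.onC (pc β (fun τ => Real.exp (-τ) * deriv α τ)) := by
      filter_upwards [hn] with y hy
      exact (QLP_der1 β α (hd _ hβ) (hd _ hα) y hy).2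
    have h2 : ∀ τ : ℝ, HasDerivAt (fun τ => Real.exp (-τ) * deriv α τ) (Real.exp (-τ) * (deriv (deriv α) τ - deriv α τ)) τ := by
      intro τ
      have h3 : HasDerivAt (fun τ : ℝ => Real.exp (-τ)) (Real.exp (-τ) * -1) τ := (hasDerivAt_neg τ).exp
      have h4 := h3.mul (hd _ hα1 τ).hasDerivAt
      refine h4.congr_deriv ?_
      ring
    have h3 : Differentiable ℝ (fun τ => Real.exp (-τ) * deriv α τ) := fun τ => (h2 τ).differentiableAt
    rw [h1.fderiv_eq, (QLP_der1 β _ (hd _ hβ) h3 w hw).2, QLP_onC _ _ w hw, (h2 _).deriv, Real.exp_neg, Real.exp_log hw]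
    rw [Complex.ofReal_inj]
    field_simp

/-- multiplication with `e^(2τ)`: the iterated derivatives -/
theorem QLP_exp (w : ℝ) : ∀ (j : ℕ) (M : ℝ) (β : ℝ → ℝ), SB w β → (∀ i ≤ j, ∀ x, |iteratedDeriv i β x| ≤ M) → ∀ i ≤ j, ∀ x, |iteratedDeriv i (fun τ => Real.exp (2 * τ) * β τ) x| ≤ Real.exp (2 * x) * (3 ^ i * M) := by
  intro j M β hβ hM i
  induction i generalizing β M j with
  | zero =>
    intro _ x
    rw [iteratedDeriv_zero, abs_mul, Real.abs_exp, pow_zero, one_mul]
    have h1 := hM 0 (Nat.zero_le _) x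
    rw [iteratedDeriv_zero] at h1
    exact mul_le_mul_of_nonneg_left h1 (Real.exp_pos _).le
  | succ i ih =>
    intro hij x
    have hd : ∀ f : ℝ → ℝ, ContDiff ℝ ∞ f → Differentiable ℝ f := fun f hf => hf.differentiable (by simp)
    have hder : deriv (fun τ => Real.exp (2 * τ) * β τ) = fun τ => Real.exp (2 * τ) * (2 * β τ + deriv β τ) := by
      funext τ
      have h3 : HasDerivAt (fun τ : ℝ => Real.exp (2 * τ)) (Real.exp (2 * τ) * (2 * 1)) τ := ((hasDerivAt_id τ).const_mul 2).exp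
      have h4 := h3.mul (hd _ hβ.1 τ).hasDerivAt
      rw [show (fun τ => Real.exp (2 * τ) * β τ) = (fun τ : ℝ => Real.exp (2 * τ)) * β from rfl, h4.deriv]
      ring
    have hSB := QLP_SB w β hβ
    have hnew : SB w (fun τ => 2 * β τ + deriv β τ) := by
      refine ⟨(contDiff_const.mul hβ.1).add hSB.1, fun x hx => ?_⟩
      by_contra hw
      have h1 : β x = 0 := by
        by_contra h2
        exact hw (hβ.2 x h2)
      have h2 : deriv β x = 0 := by
        by_contra h2
        exact hw (hSB.2 x h2)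
      refine hx ?_
      show 2 * β x + deriv β x = 0
      rw [h1, h2]
      ring
    have hb : ∀ i' ≤ j - 1, ∀ x, |iteratedDeriv i' (fun τ => 2 * β τ + deriv β τ) x| ≤ 3 * M := by
      intro i' hi' x
      have hc1 : ContDiffAt ℝ i' (fun τ => 2 * β τ) x := ((contDiff_const.mul hβ.1).of_le (by exact_mod_cast le_top)).contDiffAt
      have hc2 : ContDiffAt ℝ i' (deriv β) x := (hSB.1.of_le (by exact_mod_cast le_top)).contDiffAt
      have h1 : iteratedDeriv i' (fun τ => 2 * β τ + deriv β τ) x = 2 * iteratedDeriv i' β x + iteratedDeriv (i' + 1) β x := by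
        rw [show (fun τ => 2 * β τ + deriv β τ) = (fun τ => 2 * β τ) + deriv β from rfl, iteratedDeriv_add hc1 hc2, iteratedDeriv_const_mul_field, ← iteratedDeriv_succ']
      rw [h1]
      have h2 := hM i' (by omega) x
      have h3 := hM (i' + 1) (by omega) x
      rw [abs_le] at h2 h3 ⊢
      constructor <;> linarith
    rw [iteratedDeriv_succ', hder]
    have h5 := ih (j - 1) (3 * M) _ hnew hb (by omega) x
    refine h5.trans (le_of_eq ?_)
    rw [pow_succ]
    ring

theorem QLP_proof : QLP_stmt := by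
  refine ⟨fun β α hβ hα => ?_, 162, by norm_num, fun J M β hJ h => ?_⟩
  · have hd : ∀ f : ℝ → ℝ, ContDiff ℝ ∞ f → Differentiable ℝ f := fun f hf => hf.differentiable (by simp)
    constructor
    · funext z
      have hz : 0 < (z : ℂ).im := z.im_pos
      have h1 := (QLP_der1 β α (hd _ hβ.1) (hd _ hα.1) (z : ℂ) hz).2
      unfold QU.dY
      rw [h1, QLP_onC _ _ _ hz, Real.exp_neg]
      show z.im • (((β z.re * ((Real.exp (Real.log z.im))⁻¹ * deriv α (Real.log z.im)) : ℝ)) : ℂ) = ((β z.re * deriv α (Real.log z.im) : ℝ) : ℂ)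
      rw [Real.exp_log z.im_pos, Complex.real_smul, ← Complex.ofReal_mul, Complex.ofReal_inj]
      have h2 : z.im ≠ 0 := z.im_pos.ne'
      field_simp
    · funext z
      have hz : 0 < (z : ℂ).im := z.im_pos
      obtain ⟨h1, h2⟩ := QLP_der2 β α hβ.1 hα.1 (z : ℂ) hz
      unfold QU.lap
      rw [h1, h2]
      show -(z.im ^ 2) • (((deriv (deriv β) z.re * α (Real.log z.im) : ℝ) : ℂ) + ((β z.re * ((deriv (deriv α) (Real.log z.im) - deriv α (Real.log z.im)) / z.im ^ 2) : ℝ) : ℂ)) =
        -(((deriv (deriv β) z.re * (Real.exp (2 * Real.log z.im) * α (Real.log z.im)) : ℝ) : ℂ) + ((β z.re * (deriv (deriv α) (Real.log z.im) - deriv α (Real.log z.im)) : ℝ) : ℂ))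
      have h3 : Real.exp (2 * Real.log z.im) = z.im ^ 2 := by
        rw [two_mul, Real.exp_add, Real.exp_log z.im_pos]
        ring
      have h4 : z.im ≠ 0 := z.im_pos.ne'
      rw [h3, Complex.real_smul, ← Complex.ofReal_add, ← Complex.ofReal_mul, ← Complex.ofReal_add, ← Complex.ofReal_neg, Complex.ofReal_inj]
      field_simp
  · have hM0 : 0 ≤ M := (abs_nonneg _).trans (h.bd 0 (Nat.zero_le _) 0)
    have hz : ∀ i x, 1 / 4 < |x| → iteratedDeriv i (fun τ => Real.exp (2 * τ) * β τ) x = 0 := by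
      intro i x hx
      have h1 : (fun τ => Real.exp (2 * τ) * β τ) =ᶠ[𝓝 x] fun _ => (0 : ℝ) := by
        have h2 : {y : ℝ | 1 / 4 < |y|} ∈ 𝓝 x := (isOpen_lt continuous_const continuous_abs).mem_nhds hx
        filter_upwards [h2] with y hy
        have h3 : β y = 0 := by
          by_contra h3
          exact absurd (h.sb.2 y h3) (not_le.2 hy)
        rw [h3, mul_zero]
      rw [h1.iteratedDeriv_eq, iteratedDeriv_const]
      split_ifs <;> rfl
    refine ⟨hM0, ⟨⟨(Real.contDiff_exp.comp (contDiff_const.mul contDiff_id)).mul h.sb.1, fun x hx => ?_⟩, fun j hj x => ?_⟩, fun hJ1 => ?_, fun hJ2 => ?_⟩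
    · refine h.sb.2 x fun h0 => hx ?_
      show Real.exp (2 * x) * β x = 0
      rw [h0, mul_zero]
    · rcases le_or_gt |x| (1 / 4) with hx | hx
      · have h1 := QLP_exp (1 / 4) J M β h.sb h.bd j hj x
        refine h1.trans ?_
        have h2 : Real.exp (2 * x) ≤ 2 := by
          have h3 : Real.exp (2 * x) ≤ Real.exp (1 / 2) := Real.exp_le_exp.2 (by linarith [le_abs_self x])
          have h4 : Real.exp (1 / 2) ≤ 2 := by
            have h5 : Real.exp (1 / 2) ^ 2 = Real.exp 1 := by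
              rw [← Real.exp_nat_mul]
              norm_num
            have h6 := Real.exp_one_lt_d9
            nlinarith [Real.exp_pos (1 / 2)]
          linarith
        have h3 : (3 : ℝ) ^ j ≤ 81 := by
          calc (3 : ℝ) ^ j ≤ 3 ^ 4 := pow_le_pow_right₀ (by norm_num) (hj.trans hJ)
            _ = 81 := by norm_num
        calc Real.exp (2 * x) * (3 ^ j * M) ≤ 2 * (81 * M) := mul_le_mul h2 (mul_le_mul_of_nonneg_right h3 hM0) (by positivity) (by norm_num)
          _ = 162 * M := by ring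
      · rw [hz j x hx, abs_zero]
        positivity
    · refine ⟨QLP_SB _ β h.sb, fun j hj x => ?_⟩
      rw [← iteratedDeriv_succ']
      exact h.bd (j + 1) (by omega) x
    · refine ⟨⟨QLP_SB _ _ (QLP_SB _ β h.sb), fun j hj x => ?_⟩, ⟨⟨(QLP_SB _ _ (QLP_SB _ β h.sb)).1.sub (QLP_SB _ β h.sb).1, fun x hx => ?_⟩, fun j hj x => ?_⟩⟩
      · rw [← iteratedDeriv_succ', ← iteratedDeriv_succ']
        exact h.bd (j + 1 + 1) (by omega) x
      · by_contra hw
        refine hx ?_
        have h1 : deriv β x = 0 := by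
          by_contra h2
          exact hw ((QLP_SB _ β h.sb).2 x h2)
        have h2 : deriv (deriv β) x = 0 := by
          by_contra h2
          exact hw ((QLP_SB _ _ (QLP_SB _ β h.sb)).2 x h2)
        show deriv (deriv β) x - deriv β x = 0
        rw [h1, h2, sub_zero]
      · have hc1 : ContDiffAt ℝ j (deriv (deriv β)) x := ((QLP_SB _ _ (QLP_SB _ β h.sb)).1.of_le (by exact_mod_cast le_top)).contDiffAt
        have hc2 : ContDiffAt ℝ j (deriv β) x := ((QLP_SB _ β h.sb).1.of_le (by exact_mod_cast le_top)).contDiffAt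
        rw [show (fun τ => deriv (deriv β) τ - deriv β τ) = deriv (deriv β) - deriv β from rfl, iteratedDeriv_sub hc1 hc2, ← iteratedDeriv_succ', ← iteratedDeriv_succ', ← iteratedDeriv_succ']
        have h1 := h.bd (j + 1 + 1) (by omega) x
        have h2 := h.bd (j + 1) (by omega) x
        rw [abs_le] at h1 h2 ⊢
        constructor <;> linarith

end

end Pool.Agent.T1
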